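import Mathlib
import Pool.Agent.Q17.EndN.Family

/-!
The monoid of strictly increasing self-maps of the natural numbers has no finest Polish
semigroup topology.
-/

namespace Pool.Agent.Results.MP_0c7c8f_al

open Topology

/-- The monoid `End(ℕ, <)`: Mathlib's monoid (under composition) of relation homomorphisms of
`<` on the natural numbers, i.e. of maps `f` with `x < y → f x < f y`. -/
abbrev EndNat : Type := ((· < ·) : ℕ → ℕ → Prop) →r ((· < ·) : ℕ → ℕ → Prop)

/-- A Polish semigroup topology: multiplication is jointly continuous and the space is Polish. -/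
def IsPolishSemigroupTopology {S : Type} [Mul S] (T : TopologicalSpace S) : Prop :=
  @ContinuousMul S T _ ∧ @PolishSpace S T

/-- `T` is the finest Polish semigroup topology: it is one, and it contains every other one. -/
def IsFinestPolishSemigroupTopology {S : Type} [Mul S] (T : TopologicalSpace S) : Prop :=
  IsPolishSemigroupTopology T ∧
    ∀ T' : TopologicalSpace S, IsPolishSemigroupTopology T' →
      ∀ U : Set S, IsOpen[T'] U → IsOpen[T] U

/-- `End(ℕ, <)` has no finest Polish semigroup topology; moreover no second countable topology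
on it contains all Polish semigroup topologies. -/
theorem NoFinestPolish.result :
    (¬ ∃ T : TopologicalSpace EndNat, IsFinestPolishSemigroupTopology T) ∧
      ∀ T : TopologicalSpace EndNat, @SecondCountableTopology EndNat T →
        ∃ T' : TopologicalSpace EndNat, IsPolishSemigroupTopology T' ∧
          ∃ U : Set EndNat, IsOpen[T'] U ∧ ¬ IsOpen[T] U := by
  have key : ∀ T : TopologicalSpace EndNat, @SecondCountableTopology EndNat T →
        ∃ T' : TopologicalSpace EndNat, IsPolishSemigroupTopology T' ∧
          ∃ U : Set EndNat, IsOpen[T'] U ∧ ¬ IsOpen[T] U := by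
    intro T hT
    obtain ⟨α, h0, h1, hα⟩ := @Q17.EndN.no_upper_bound T hT
    refine ⟨Q17.EndN.top (Q17.EndN.pw α), ⟨Q17.EndN.continuous_mul_top
      (Q17.EndN.pw_weight h0 h1), Q17.EndN.polish_top _⟩, ?_⟩
    by_contra hcon
    push Not at hcon
    exact hα fun U hU => hcon U hU
  refine ⟨?_, key⟩
  rintro ⟨T, hT, hmax⟩
  obtain ⟨T', hT', U, hU, hU'⟩ := key T (by
    have := hT.2
    infer_instance)
  exact hU' (hmax T' hT' U hU)

end Pool.Agent.Results.MP_0c7c8f_al
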